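import Pool.Agent.Lib.P4a177v.Van

/-!
# Everything is unramified
-/

set_option autoImplicit false

namespace P4a177v

open P4a177h Function

section Calculus

variable {n : ℕ} {K : Type*} [Field K]

theorem two_steinberg' (a : Fin n → Kˣ) {i j : Fin n} (hij : i ≠ j) (x y : Kˣ)
    (h : (x : K) + y = 1) : two a i j x y = 0 := by
  apply symb_add_one _ hij
  rw [update_of_ne hij, update_self, update_self]
  exact h

theorem two_neg' (a : Fin n → Kˣ) {i j : Fin n} (hij : i ≠ j) (x : Kˣ) :
    two a i j x (-x) = 0 := by
  by_cases hx : x = 1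
  · rw [hx, two_one_left a hij]
  · have hx1 : (x : K) ≠ 1 := fun h => hx (Units.ext h)
    have hx0 : (x : K) ≠ 0 := x.ne_zero
    have h2 : (1 : K) - x ≠ 0 := sub_ne_zero.2 hx1.symm
    have h3 : (1 : K) - (x : K)⁻¹ ≠ 0 := by
      intro h
      apply hx1
      have h4 : (x : K)⁻¹ = 1 := (sub_eq_zero.1 h).symm
      exact inv_eq_one.1 h4
    have h5 : -x = Units.mk0 (1 - (x : K)) h2 * (Units.mk0 (1 - (x : K)⁻¹) h3)⁻¹ := by
      apply Units.ext
      rw [Units.val_neg, Units.val_mul, Units.val_inv_eq_inv_val, Units.val_mk0, Units.val_mk0,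
        eq_mul_inv_iff_mul_eq₀ h3]
      field_simp
      ring
    rw [h5, two_mul_right, two_inv_right, two_steinberg' a hij x _ (by rw [Units.val_mk0]; ring)]
    have h6 : two a i j x (Units.mk0 (1 - (x : K)⁻¹) h3) = 0 := by
      have h7 : two a i j x⁻¹ (Units.mk0 (1 - (x : K)⁻¹) h3) = 0 :=
        two_steinberg' a hij x⁻¹ _ (by
          rw [Units.val_mk0, Units.val_inv_eq_inv_val]; ring)
      rw [two_inv_left a hij, neg_eq_zero] at h7
      exact h7
    rw [h6, neg_zero, add_zero]

theorem two_anti' (a : Fin n → Kˣ) {i j : Fin n} (hij : i ≠ j) (x y : Kˣ) :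
    two a i j x y = -two a i j y x := by
  have h := two_neg' a hij (x * y)
  rw [two_mul_left a hij] at h
  have e1 : two a i j x (-(x * y)) = two a i j x y := by
    rw [← neg_mul, two_mul_right, two_neg' a hij, zero_add]
  have e2 : two a i j y (-(x * y)) = two a i j y x := by
    rw [← mul_neg, mul_comm, neg_mul, ← neg_mul, two_mul_right, two_neg' a hij, zero_add]
  rw [e1, e2] at h
  exact eq_neg_of_add_eq_zero_left h

theorem symb_swap' (a : Fin n → Kˣ) {i j : Fin n} (hij : i ≠ j) :
    symb a = -symb (a ∘ Equiv.swap i j) := by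
  have e1 : a = update (update a i (a i)) j (a j) := by
    rw [update_eq_self, update_eq_self]
  have e2 : a ∘ Equiv.swap i j = update (update a i (a j)) j (a i) := by
    funext l
    by_cases hj : l = j
    · subst hj
      rw [update_self, comp_apply, Equiv.swap_apply_right]
    · by_cases hi : l = i
      · subst hi
        rw [update_of_ne hj, update_self, comp_apply, Equiv.swap_apply_left]
      · rw [update_of_ne hj, update_of_ne hi, comp_apply, Equiv.swap_apply_of_ne_of_ne hi hj]
  rw [e2]
  conv_lhs => rw [e1]
  exact two_anti' a hij _ _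

/-- `{x, x}` is killed by `2`. -/
theorem two_self (a : Fin n → Kˣ) {i j : Fin n} (hij : i ≠ j) (x : Kˣ) :
    two a i j x x + two a i j x x = 0 := by
  have h := two_anti' a hij x x
  rw [eq_neg_iff_add_eq_zero] at h
  exact h

end Calculus

section Main

variable {K : Type*} [Field K] (v : Valuation K (WithZero (Multiplicative ℤ)))

theorem mem_Usat_of_zsmul {k : ℕ} {x : MilnorK k K} {m : ℤ} (hm : m ≠ 0) (h : m • x ∈ Usat v k) :
    x ∈ Usat v k := by
  apply mem_Usat_of_nsmul v (m := m.natAbs) (by omega)
  rcases Int.natAbs_eq m with h1 | h1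
  · have h2 : (m.natAbs : ℕ) • x = m • x := by
      conv_rhs => rw [h1]
      exact (natCast_zsmul x _).symm
    rw [h2]
    exact h
  · have h2 : (m.natAbs : ℕ) • x = -(m • x) := by
      conv_rhs => rw [h1]
      rw [← neg_zsmul, neg_neg]
      exact (natCast_zsmul x _).symm
    rw [h2]
    exact neg_mem h

/-- One step: replace an entry by a unit. -/
theorem step {n : ℕ} (b : Fin n → Kˣ) {i s : Fin n} (his : i ≠ s) (α β : ℤ)
    (hβ : β ≠ 0) (_hα : v (b i : K) = WithZero.exp α) (hs : v (b s : K) = WithZero.exp β)
    (h : symb (update b i (b i ^ β * b s ^ (-α))) ∈ Usat v n) : symb b ∈ Usat v n := by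
  apply mem_Usat_of_nsmul v (m := 2) two_ne_zero
  apply mem_Usat_of_zsmul v (m := β) hβ
  set w : Kˣ := b i ^ β * b s ^ (-α) with hw
  have h1 : b i ^ β = w * b s ^ α := by
    rw [hw, mul_assoc, ← zpow_add, neg_add_cancel, zpow_zero, mul_one]
  have h2 : β • symb b = symb (update b i w) + α • symb (update b i (b s)) := by
    have h3 : symb (update b i (b i ^ β)) = β • symb b := by
      rw [symb_zpow, update_eq_self]
    rw [← h3, h1, symb_mul, symb_zpow]
  have h4 : symb (update b i (b s)) + symb (update b i (b s)) = 0 := by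
    have h5 := two_self b his (b s)
    have h6 : two b i s (b s) (b s) = symb (update b i (b s)) := by
      unfold two
      congr 1
      funext l
      by_cases hl : l = s
      · subst hl
        rw [update_self, update_of_ne his.symm]
      · rw [update_of_ne hl]
    rw [h6] at h5
    exact h5
  have h7 : β • (2 • symb b) = symb (update b i w) + symb (update b i w) := by
    have h8 : (2 : ℕ) • symb b = symb b + symb b := two_nsmul _
    rw [h8]
    have h9 := zsmul_add (symb b) (symb b) β
    rw [h9, h2]
    have h10 : α • symb (update b i (b s)) + α • symb (update b i (b s)) = 0 := by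
      have h11 := zsmul_add (symb (update b i (b s))) (symb (update b i (b s))) α
      rw [h4, zsmul_zero] at h11
      exact h11.symm
    rw [add_add_add_comm, h10, add_zero]
  rw [h7]
  exact add_mem h h

theorem mem_of_units_but_one [CharZero K] {p : ℕ} (hp : p.Prime) (h : v (p : K) < 1) (d n : ℕ)
    (hd : Algebra.trdeg ℚ K ≤ d) (hn : 2 ^ (d + 1) ≤ n) (b : Fin (n + 1) → Kˣ) (s : Fin (n + 1))
    (hb : ∀ i, i ≠ s → v (b i : K) = 1) : symb b ∈ Usat v (n + 1) := by
  have key : ∀ c : Fin (n + 1) → Kˣ, (∀ i, i ≠ Fin.last n → v (c i : K) = 1) →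
      symb c ∈ Usat v (n + 1) := by
    intro c hc
    have h1 := unramified_snoc v hp h d n hd hn (fun i => c i.castSucc)
      (fun i => hc _ (Fin.castSucc_lt_last i).ne) (c (Fin.last n))
    have h2 : (Fin.snoc (fun i => c i.castSucc) (c (Fin.last n)) : Fin (n + 1) → Kˣ) = c :=
      Fin.snoc_init_self c
    rw [h2] at h1
    exact h1
  by_cases hs : s = Fin.last n
  · subst hs
    exact key b hb
  · rw [symb_swap' b hs]
    apply neg_mem
    apply key
    intro i hi
    rw [comp_apply]
    apply hb
    intro h3
    apply hi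
    rw [Equiv.swap_apply_eq_iff, Equiv.swap_apply_left] at h3
    exact h3

theorem symb_mem [CharZero K] {p : ℕ} (hp : p.Prime) (h : v (p : K) < 1) (d n : ℕ)
    (hd : Algebra.trdeg ℚ K ≤ d) (hn : 2 ^ (d + 1) < n) (b : Fin n → Kˣ) :
    symb b ∈ Usat v n := by
  classical
  have hn0 : 0 < n := (Nat.zero_le _).trans_lt hn
  obtain ⟨m, rfl⟩ : ∃ m, n = m + 1 := ⟨n - 1, by omega⟩
  by_cases hall : ∀ i, v (b i : K) = 1
  · exact unramified_symb v b (Or.inl hall)
  · push Not at hall
    obtain ⟨s, hs⟩ := hall
    -- induction over the number of non-unit entries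
    have hexp : ∀ x : Kˣ, v (x : K) = WithZero.exp (WithZero.log (v (x : K))) := fun x =>
      (WithZero.exp_log ((Valuation.ne_zero_iff v).2 x.ne_zero)).symm
    have key : ∀ (T : Finset (Fin (m + 1))) (c : Fin (m + 1) → Kˣ), s ∉ T → v (c s : K) ≠ 1 →
        (∀ i, i ≠ s → i ∉ T → v (c i : K) = 1) → symb c ∈ Usat v (m + 1) := by
      intro T
      induction T using Finset.induction_on with
      | empty =>
        intro c _ _ hc
        exact mem_of_units_but_one v hp h d m hd (by omega) c s
          (fun i hi => hc i hi (Finset.notMem_empty i))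
      | insert i T hiT ih =>
        intro c hsT hcs hc
        rw [Finset.mem_insert, not_or] at hsT
        have hβ : WithZero.log (v (c s : K)) ≠ 0 := by
          intro h0
          apply hcs
          rw [hexp (c s), h0, WithZero.exp_zero]
        refine step v c (Ne.symm hsT.1) (WithZero.log (v (c i : K))) (WithZero.log (v (c s : K)))
          hβ (hexp _) (hexp _) ?_
        apply ih _ hsT.2
        · rw [update_of_ne hsT.1]
          exact hcs
        · intro l hl hlT
          by_cases hli : l = i
          · subst hli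
            rw [update_self, Units.val_mul, Units.val_zpow_eq_zpow_val, Units.val_zpow_eq_zpow_val,
              map_mul, map_zpow₀, map_zpow₀]
            have hi := hexp (c l)
            have hs' := hexp (c s)
            set α := WithZero.log (v (c l : K))
            set β := WithZero.log (v (c s : K))
            rw [hi, hs', ← WithZero.exp_zsmul, ← WithZero.exp_zsmul, ← WithZero.exp_add,
              ← WithZero.exp_zero]
            congr 1
            simp only [smul_eq_mul]
            ring
          · rw [update_of_ne hli]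
            exact hc l hl (by rw [Finset.mem_insert, not_or]; exact ⟨hli, hlT⟩)
    exact key (Finset.univ.erase s) b (Finset.notMem_erase s _) hs (fun i hi hiT =>
      absurd (Finset.mem_erase.2 ⟨hi, Finset.mem_univ i⟩) hiT)

theorem all_unramified [CharZero K] {p : ℕ} (hp : p.Prime) (h : v (p : K) < 1) (d n : ℕ)
    (hd : Algebra.trdeg ℚ K ≤ d) (hn : 2 ^ (d + 1) < n) (ξ : MilnorK n K) : Unramified v ξ := by
  have h1 : mkG v n = 0 := by
    apply hom_ext
    intro a
    rw [AddMonoidHom.zero_apply, mkG_eq_zero]
    exact symb_mem v hp h d n hd hn a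
  exact (mem_Usat v).1 ((mkG_eq_zero v).1 (DFunLike.congr_fun h1 ξ))

end Main

end P4a177v
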