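import Pool.Agent.Lib.P4a177h.Unram

/-!
# Symbols modulo the symbols that are unramified at a valuation
-/

set_option autoImplicit false

namespace P4a177v

open P4a177h Function

noncomputable section

variable {K : Type*} [Field K] (v : Valuation K (WithZero (Multiplicative ℤ)))

/-- The unramified elements. -/
def Usat (k : ℕ) : AddSubgroup (MilnorK k K) where
  carrier := {x | Unramified v x}
  zero_mem' := ⟨1, one_pos, by
    have h : (1 : ℕ) • (0 : MilnorK k K) = 0 := nsmul_zero 1
    rw [h]; exact zero_mem _⟩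
  add_mem' := by
    rintro x y ⟨m, hm, hx⟩ ⟨l, hl, hy⟩
    refine ⟨m * l, Nat.mul_pos hm hl, ?_⟩
    have h : (m * l) • (x + y) = l • (m • x) + m • (l • y) := by
      have h1 := nsmul_add x y (m * l)
      have h2 := mul_nsmul x m l
      have h3 := mul_nsmul' y m l
      rw [h2, h3] at h1
      exact h1
    rw [h]
    exact add_mem (AddSubgroup.nsmul_mem _ hx _) (AddSubgroup.nsmul_mem _ hy _)
  neg_mem' := by
    rintro x ⟨m, hm, hx⟩
    refine ⟨m, hm, ?_⟩
    have h : m • (-x) = -(m • x) := by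
      have h1 : m • (-x) + m • x = 0 := by
        have h2 := nsmul_add (-x) x m
        rw [neg_add_cancel, nsmul_zero] at h2
        exact h2.symm
      exact eq_neg_of_add_eq_zero_left h1
    rw [h]
    exact neg_mem hx

theorem mem_Usat {k : ℕ} {x : MilnorK k K} : x ∈ Usat v k ↔ Unramified v x := Iff.rfl

theorem mem_Usat_of_nsmul {k : ℕ} {x : MilnorK k K} {m : ℕ} (hm : m ≠ 0) (h : m • x ∈ Usat v k) :
    x ∈ Usat v k := by
  obtain ⟨l, hl, hx⟩ := h
  refine ⟨m * l, Nat.mul_pos (Nat.pos_of_ne_zero hm) hl, ?_⟩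
  have h2 := mul_nsmul x m l
  rw [h2]
  exact hx

/-- The quotient, a torsion free group. -/
def G (k : ℕ) : Type _ := MilnorK k K ⧸ Usat v k

instance (k : ℕ) : AddCommGroup (G v k) :=
  inferInstanceAs (AddCommGroup (MilnorK k K ⧸ Usat v k))

/-- The projection. -/
def mkG (k : ℕ) : MilnorK k K →+ G v k := QuotientAddGroup.mk' (Usat v k)

theorem mkG_surj (k : ℕ) (y : G v k) : ∃ x, mkG v k x = y := QuotientAddGroup.mk_surjective y

theorem mkG_eq_zero {k : ℕ} {x : MilnorK k K} : mkG v k x = 0 ↔ x ∈ Usat v k :=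
  QuotientAddGroup.eq_zero_iff x

theorem G_tf (k : ℕ) (x : G v k) (m : ℕ) (hm : m ≠ 0) (h : m • x = 0) : x = 0 := by
  obtain ⟨y, rfl⟩ := mkG_surj v k x
  rw [← map_nsmul, mkG_eq_zero] at h
  rw [mkG_eq_zero]
  exact mem_Usat_of_nsmul v hm h

/-- Two homomorphisms from the Milnor `K`-group agree if they agree on symbols. -/
theorem hom_ext {k : ℕ} {A : Type*} [AddCommGroup A] {f g : MilnorK k K →+ A}
    (h : ∀ a, f (symb a) = g (symb a)) : f = g := by
  apply QuotientAddGroup.addMonoidHom_ext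
  apply FreeAbelianGroup.lift_ext
  exact h

/-- Multiplication by `{u}` from the left. -/
def consHom {k : ℕ} (u : Kˣ) : MilnorK k K →+ MilnorK (k + 1) K :=
  lift (fun a => symb (Fin.cons u a : Fin (k + 1) → Kˣ))
    (fun a i b c => by
      rw [Fin.cons_update, Fin.cons_update, Fin.cons_update, symb_mul])
    (fun a i j hij h => symb_steinberg _ i.succ j.succ (by simp [hij]) (by
      rw [Fin.cons_succ, Fin.cons_succ]; exact h))

theorem consHom_symb {k : ℕ} (u : Kˣ) (a : Fin k → Kˣ) :
    consHom u (symb a) = symb (Fin.cons u a : Fin (k + 1) → Kˣ) := lift_symb _ _ _ a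

theorem consHom_mul {k : ℕ} (u w : Kˣ) :
    (consHom (u * w) : MilnorK k K →+ _) = consHom u + consHom w := by
  apply hom_ext
  intro a
  rw [AddMonoidHom.add_apply, consHom_symb, consHom_symb, consHom_symb]
  have h := symb_mul (Fin.cons u a : Fin (k + 1) → Kˣ) 0 u w
  rw [Fin.update_cons_zero, Fin.update_cons_zero, Fin.update_cons_zero] at h
  exact h

theorem consHom_st {k : ℕ} (u w : Kˣ) (h : (u : K) + w = 1) (x : MilnorK k K) :
    consHom u (consHom w x) = 0 := by
  have h1 : ((consHom u).comp (consHom w) : MilnorK k K →+ _) = 0 := by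
    apply hom_ext
    intro a
    rw [AddMonoidHom.comp_apply, consHom_symb, consHom_symb, AddMonoidHom.zero_apply]
    exact symb_steinberg _ 0 1 rfl h
  exact DFunLike.congr_fun h1 x

/-- Units preserve unramified elements. -/
theorem consHom_mem {k : ℕ} (u : Kˣ) (hu : v (u : K) = 1) (x : MilnorK k K)
    (hx : x ∈ Usat v k) : consHom u x ∈ Usat v (k + 1) := by
  obtain ⟨m, hm, h⟩ := hx
  refine ⟨m, hm, ?_⟩
  rw [← map_nsmul]
  have h1 : consHom u (m • x) ∈ (AddSubgroup.closure
    {x : MilnorK k K | ∃ a : Fin k → Kˣ, (∀ i, v (a i : K) = 1) ∧ x = symb a}).map (consHom u) :=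
    AddSubgroup.mem_map_of_mem _ h
  rw [AddMonoidHom.map_closure] at h1
  refine AddSubgroup.closure_mono ?_ h1
  rintro _ ⟨_, ⟨a, ha, rfl⟩, rfl⟩
  refine ⟨Fin.cons u a, ?_, consHom_symb u a⟩
  intro i
  refine Fin.cases ?_ ?_ i
  · rw [Fin.cons_zero]; exact hu
  · intro j
    rw [Fin.cons_succ]; exact ha j

/-- Entries congruent to one kill everything. -/
theorem consHom_one_mem {k : ℕ} (w : Kˣ) (hw : v ((w : K) - 1) < 1) (x : MilnorK k K) :
    consHom w x ∈ Usat v (k + 1) := by
  have h1 : (mkG v (k + 1)).comp (consHom w : MilnorK k K →+ _) = 0 := by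
    apply hom_ext
    intro a
    rw [AddMonoidHom.comp_apply, consHom_symb, AddMonoidHom.zero_apply, mkG_eq_zero]
    exact unramified_symb v _ (Or.inr ⟨0, hw⟩)
  exact (mkG_eq_zero v).1 (DFunLike.congr_fun h1 x)

/-- Multiplication by a unit on the quotients. -/
def consBar {k : ℕ} (u : Kˣ) (hu : v (u : K) = 1) : G v k →+ G v (k + 1) :=
  QuotientAddGroup.map (Usat v k) (Usat v (k + 1)) (consHom u) fun x hx => consHom_mem v u hu x hx

theorem consBar_mk {k : ℕ} (u : Kˣ) (hu : v (u : K) = 1) (x : MilnorK k K) :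
    consBar v u hu (mkG v k x) = mkG v (k + 1) (consHom u x) := rfl

theorem consBar_congr {k : ℕ} (u w : Kˣ) (hu : v (u : K) = 1) (hw : v (w : K) = 1)
    (h : v ((u : K) - w) < 1) (y : G v k) : consBar v u hu y = consBar v w hw y := by
  obtain ⟨x, rfl⟩ := mkG_surj v k y
  rw [consBar_mk, consBar_mk]
  have h1 : u = w * (u / w) := by rw [mul_div_cancel]
  have h2 : v (((u / w : Kˣ) : K) - 1) < 1 := by
    have h3 : ((u / w : Kˣ) : K) - 1 = ((u : K) - w) / w := by
      rw [Units.val_div_eq_div_val, sub_div, div_self w.ne_zero]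
    rw [h3, map_div₀, hw, div_one]
    exact h
  have h4 : consHom u x = consHom w x + consHom (u / w) x := by
    conv_lhs => rw [h1, consHom_mul, AddMonoidHom.add_apply]
  rw [h4, map_add, (mkG_eq_zero v).2 (consHom_one_mem v _ h2 x), add_zero]

/-- Left multiplication by a unit on sequences. -/
def Lfun (u : Kˣ) (hu : v (u : K) = 1) (x : ∀ k, G v k) : ∀ k, G v k
  | 0 => 0
  | k + 1 => consBar v u hu (x k)

theorem Lfun_zero (u : Kˣ) (hu : v (u : K) = 1) (x : ∀ k, G v k) : Lfun v u hu x 0 = 0 := rfl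

theorem Lfun_succ (u : Kˣ) (hu : v (u : K) = 1) (x : ∀ k, G v k) (k : ℕ) :
    Lfun v u hu x (k + 1) = consBar v u hu (x k) := rfl

/-- Left multiplication by a unit on sequences. -/
def L (u : Kˣ) (hu : v (u : K) = 1) : AddMonoid.End (∀ k, G v k) :=
  AddMonoidHom.mk' (Lfun v u hu) fun x y => by
    funext k
    cases k with
    | zero => rw [Pi.add_apply, Lfun_zero, Lfun_zero, Lfun_zero, add_zero]
    | succ k => rw [Pi.add_apply, Lfun_succ, Lfun_succ, Lfun_succ, Pi.add_apply, map_add]

theorem L_zero (u : Kˣ) (hu : v (u : K) = 1) (x : ∀ k, G v k) : L v u hu x 0 = 0 := rfl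

theorem L_succ (u : Kˣ) (hu : v (u : K) = 1) (x : ∀ k, G v k) (k : ℕ) :
    L v u hu x (k + 1) = consBar v u hu (x k) := rfl

theorem L_single (u : Kˣ) (hu : v (u : K) = 1) (k : ℕ) (y : G v k) :
    L v u hu (Pi.single k y) = Pi.single (k + 1) (consBar v u hu y) := by
  funext m
  cases m with
  | zero =>
    rw [L_zero, Pi.single_eq_of_ne (by omega)]
  | succ m =>
    rw [L_succ]
    by_cases h : m = k
    · subst h
      rw [Pi.single_eq_same, Pi.single_eq_same]
    · rw [Pi.single_eq_of_ne h, Pi.single_eq_of_ne (by omega), map_zero]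

theorem End_ext {f g : AddMonoid.End (∀ k, G v k)} (h : ∀ x k, f x k = g x k) : f = g :=
  AddMonoidHom.ext fun x => funext fun k => h x k

theorem L_congr (u w : Kˣ) (hu : v (u : K) = 1) (hw : v (w : K) = 1)
    (h : v ((u : K) - w) < 1) : L v u hu = L v w hw := by
  apply End_ext
  intro x k
  cases k with
  | zero => rfl
  | succ k => rw [L_succ, L_succ, consBar_congr v u w hu hw h]

theorem L_mul (u w : Kˣ) (hu : v (u : K) = 1) (hw : v (w : K) = 1)
    (huw : v ((u * w : Kˣ) : K) = 1) : L v (u * w) huw = L v u hu + L v w hw := by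
  apply End_ext
  intro x k
  have e : (L v u hu + L v w hw) x k = L v u hu x k + L v w hw x k := rfl
  rw [e]
  cases k with
  | zero => rw [L_zero, L_zero, L_zero, add_zero]
  | succ k =>
    rw [L_succ, L_succ, L_succ]
    obtain ⟨y, hy⟩ := mkG_surj v k (x k)
    rw [← hy, consBar_mk, consBar_mk, consBar_mk, consHom_mul, AddMonoidHom.add_apply, map_add]

theorem L_st (u w : Kˣ) (hu : v (u : K) = 1) (hw : v (w : K) = 1) (h : (u : K) + w = 1) :
    L v u hu * L v w hw = 0 := by
  apply End_ext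
  intro x k
  have e : (L v u hu * L v w hw) x k = L v u hu (L v w hw x) k := rfl
  rw [e]
  have e2 : (0 : AddMonoid.End (∀ k, G v k)) x k = 0 := rfl
  rw [e2]
  cases k with
  | zero => rfl
  | succ k =>
    cases k with
    | zero => rw [L_succ, L_zero, map_zero]
    | succ k =>
      rw [L_succ, L_succ]
      obtain ⟨y, hy⟩ := mkG_surj v k (x k)
      rw [← hy, consBar_mk, consBar_mk, consHom_st u w h, map_zero]

theorem End_tf (m : ℕ) (f : AddMonoid.End (∀ k, G v k)) (hm : m ≠ 0) (h : m • f = 0) : f = 0 := by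
  apply End_ext
  intro x k
  have h1 : (m • f) x k = 0 := by rw [h]; rfl
  exact G_tf v k _ m hm h1

end

end P4a177v
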