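import Mathlib

/-!
# The transcendence degree of the residue field of a valuation above a prime
-/

set_option autoImplicit false

namespace P4a177v

open IsLocalRing

/-- Lifts of algebraically independent elements are algebraically independent. -/
theorem algInd_lift {p : ℕ} (hp : p.Prime) {A κ : Type*} [CommRing A] [IsDomain A] [CharZero A]
    [Field κ] [Algebra (ZMod p) κ] (φ : A →+* κ) {ι : Type*} (y : ι → A)
    (h : AlgebraicIndependent (ZMod p) fun i => φ (y i)) : AlgebraicIndependent ℤ y := by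
  have : Fact p.Prime := ⟨hp⟩
  rw [algebraicIndependent_iff]
  intro P hP
  -- `C p ^ k ∣ P` for every `k`
  have key : ∀ Q : MvPolynomial ι ℤ, MvPolynomial.aeval y Q = 0 → MvPolynomial.C (p : ℤ) ∣ Q := by
    intro Q hQ
    rw [MvPolynomial.C_dvd_iff_map_hom_eq_zero (Int.castRingHom (ZMod p)) (p : ℤ)
      (fun r => ZMod.intCast_zmod_eq_zero_iff_dvd r p)]
    rw [algebraicIndependent_iff] at h
    apply h
    have h1 : φ (MvPolynomial.aeval y Q) = 0 := by rw [hQ, map_zero]
    rw [MvPolynomial.aeval_def, MvPolynomial.eval₂_map]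
    rw [MvPolynomial.aeval_def, MvPolynomial.hom_eval₂] at h1
    have h2 : (algebraMap (ZMod p) κ).comp (Int.castRingHom (ZMod p)) =
        φ.comp (algebraMap ℤ A) := RingHom.ext_int _ _
    rw [h2]
    exact h1
  have hk : ∀ k : ℕ, ∃ Q : MvPolynomial ι ℤ, P = MvPolynomial.C ((p : ℤ) ^ k) * Q ∧
      MvPolynomial.aeval y Q = 0 := by
    intro k
    induction k with
    | zero => exact ⟨P, by simp, hP⟩
    | succ k ih =>
      obtain ⟨Q, hQ, hQ0⟩ := ih
      obtain ⟨R, hR⟩ := key Q hQ0
      refine ⟨R, ?_, ?_⟩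
      · rw [hQ, hR, pow_succ, MvPolynomial.C_mul, mul_assoc]
      · rw [hR, map_mul] at hQ0
        rcases mul_eq_zero.1 hQ0 with h1 | h1
        · exfalso
          rw [MvPolynomial.aeval_C] at h1
          simp only [algebraMap_int_eq, eq_intCast, Int.cast_natCast, Nat.cast_eq_zero] at h1
          exact hp.ne_zero h1
        · exact h1
  ext m
  rw [MvPolynomial.coeff_zero]
  by_contra hm
  have hdvd : ∀ k : ℕ, (p : ℤ) ^ k ∣ P.coeff m := by
    intro k
    obtain ⟨Q, hQ, _⟩ := hk k
    rw [hQ, MvPolynomial.coeff_C_mul]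
    exact dvd_mul_right _ _
  have h2 := Int.natAbs_dvd_natAbs.2 (hdvd (P.coeff m).natAbs)
  rw [Int.natAbs_pow, Int.natAbs_natCast] at h2
  have h3 := Nat.le_of_dvd (Int.natAbs_pos.2 hm) h2
  exact absurd h3 (not_le.2 (Nat.lt_pow_self hp.one_lt))

theorem trdeg_int_le {K : Type*} [Field K] [CharZero K] (d : ℕ)
    (hd : Algebra.trdeg ℚ K ≤ d) : Algebra.trdeg ℤ K ≤ d := by
  have h1 := lift_trdeg_add_eq ℤ ℚ K
  have h2 : Algebra.trdeg ℤ ℚ = 0 := by
    have : Algebra.IsAlgebraic ℤ ℚ := ⟨fun q => by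
      refine ⟨Polynomial.C (q.den : ℤ) * Polynomial.X - Polynomial.C q.num, ?_, ?_⟩
      · intro h
        have h3 : (Polynomial.C (q.den : ℤ) * Polynomial.X - Polynomial.C q.num).coeff 1 = 0 := by
          rw [h, Polynomial.coeff_zero]
        rw [Polynomial.coeff_sub, Polynomial.coeff_C_mul, Polynomial.coeff_X_one,
          Polynomial.coeff_C_ne_zero one_ne_zero, mul_one, sub_zero, Nat.cast_eq_zero] at h3
        exact q.den_nz h3
      · simp [Rat.den_mul_eq_num]⟩
    exact trdeg_eq_zero
  rw [h2, Cardinal.lift_zero, zero_add, Cardinal.lift_uzero, Cardinal.lift_uzero] at h1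
  rw [← h1]
  exact hd

theorem trdeg_residue_le {p : ℕ} (hp : p.Prime) {K : Type*} [Field K] [CharZero K]
    (O : ValuationSubring K) [Algebra (ZMod p) (ResidueField O)] (d : ℕ)
    (hd : Algebra.trdeg ℚ K ≤ d) : Algebra.trdeg (ZMod p) (ResidueField O) ≤ d := by
  have : Fact p.Prime := ⟨hp⟩
  refine le_trans ?_ (trdeg_int_le d hd)
  apply ciSup_le'
  rintro ⟨s, hs⟩
  choose y hy using fun i : s => residue_surjective (R := O) (i : ResidueField O)
  have h3 : AlgebraicIndependent (ZMod p) fun i : s => residue O (y i) := by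
    have : (fun i : s => residue O (y i)) = fun i : s => (i : ResidueField O) := funext hy
    rw [this]
    exact hs
  have hO : CharZero O := ⟨fun a b h => by
    have := congrArg (algebraMap O K) h
    simpa using this⟩
  have h4 := algInd_lift hp (residue O) y h3
  have h5 : AlgebraicIndependent ℤ fun i : s => ((y i : O) : K) :=
    h4.map' (f := (algebraMap O K).toIntAlgHom) (Subtype.val_injective)
  have h6 := h5.lift_cardinalMk_le_trdeg
  have h7 : Cardinal.lift.{_, _} (Cardinal.mk s) = Cardinal.mk s := Cardinal.lift_id _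
  simpa using h6

end P4a177v
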