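import Pool.Agent.Lib.P4a177v.Ops
import Pool.Agent.Lib.P4a177v.Trdeg
import Pool.Agent.Lib.MilnorVan.Main2

/-!
# Long symbols of units are unramified after multiplication by anything
-/

set_option autoImplicit false

namespace P4a177v

open P4a177h Function IsLocalRing

noncomputable section

variable {K : Type*} [Field K] (v : Valuation K (WithZero (Multiplicative ℤ)))

theorem residue_eq_iff (x y : v.valuationSubring) :
    residue v.valuationSubring x = residue v.valuationSubring y ↔ v ((x : K) - y) < 1 := by
  rw [← sub_eq_zero, ← map_sub, residue_eq_zero_iff, Valuation.mem_maximalIdeal_iff]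
  rfl

/-- A lift of a unit of the residue field. -/
theorem exists_lift (a : (ResidueField v.valuationSubring)ˣ) :
    ∃ u : Kˣ, v (u : K) = 1 ∧ ∃ x : v.valuationSubring, (x : K) = u ∧
      residue v.valuationSubring x = a := by
  obtain ⟨x, hx⟩ := residue_surjective (R := v.valuationSubring) (a : ResidueField v.valuationSubring)
  have h1 : ¬ v (x : K) < 1 := by
    intro h
    have h2 : residue v.valuationSubring x = 0 := by
      rw [residue_eq_zero_iff, Valuation.mem_maximalIdeal_iff]
      exact h
    rw [hx] at h2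
    exact a.ne_zero h2
  have h2 : v (x : K) = 1 := le_antisymm x.2 (not_lt.1 h1)
  have h3 : (x : K) ≠ 0 := by
    intro h
    rw [h, map_zero] at h2
    exact zero_ne_one h2
  exact ⟨Units.mk0 (x : K) h3, h2, x, rfl, hx⟩

/-- The chosen lift. -/
def lft (a : (ResidueField v.valuationSubring)ˣ) : Kˣ := (exists_lift v a).choose

theorem lft_val (a : (ResidueField v.valuationSubring)ˣ) : v (lft v a : K) = 1 :=
  (exists_lift v a).choose_spec.1

theorem lft_spec (a : (ResidueField v.valuationSubring)ˣ) :
    ∃ x : v.valuationSubring, (x : K) = lft v a ∧ residue v.valuationSubring x = a :=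
  (exists_lift v a).choose_spec.2

/-- The Steinberg symbol. -/
def sy (a : (ResidueField v.valuationSubring)ˣ) : AddMonoid.End (∀ k, G v k) :=
  L v (lft v a) (lft_val v a)

theorem sy_eq (a : (ResidueField v.valuationSubring)ˣ) (u : Kˣ) (hu : v (u : K) = 1)
    (x : v.valuationSubring) (hx : (x : K) = u) (hxa : residue v.valuationSubring x = a) :
    sy v a = L v u hu := by
  obtain ⟨y, hy, hya⟩ := lft_spec v a
  apply L_congr
  rw [← hx, ← hy]
  exact (residue_eq_iff v y x).1 (hya.trans hxa.symm)

theorem isSymb_sy : Pool.Agent.Lib.MilnorVan.IsSymb (sy v) where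
  mul a b := by
    obtain ⟨x, hx, hxa⟩ := lft_spec v a
    obtain ⟨y, hy, hyb⟩ := lft_spec v b
    have huw : v ((lft v a * lft v b : Kˣ) : K) = 1 := by
      rw [Units.val_mul, map_mul, lft_val, lft_val, mul_one]
    rw [sy_eq v (a * b) (lft v a * lft v b) huw (x * y) (by
      rw [Units.val_mul, ← hx, ← hy]; rfl) (by
      rw [map_mul, hxa, hyb, Units.val_mul])]
    exact L_mul v _ _ _ _ _
  st a b hab := by
    obtain ⟨x, hx, hxa⟩ := lft_spec v a
    have h1 : residue v.valuationSubring (1 - x) = b := by
      rw [map_sub, map_one, hxa, ← hab, add_sub_cancel_left]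
    have h2 : ¬ v ((1 - x : v.valuationSubring) : K) < 1 := by
      intro h
      have h3 : residue v.valuationSubring (1 - x) = 0 := by
        rw [residue_eq_zero_iff, Valuation.mem_maximalIdeal_iff]
        exact h
      rw [h1] at h3
      exact b.ne_zero h3
    have h3 : v ((1 - x : v.valuationSubring) : K) = 1 :=
      le_antisymm (1 - x : v.valuationSubring).2 (not_lt.1 h2)
    have h4 : ((1 - x : v.valuationSubring) : K) ≠ 0 := by
      intro h
      rw [h, map_zero] at h3
      exact zero_ne_one h3
    rw [sy_eq v b (Units.mk0 _ h4) h3 (1 - x) rfl h1]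
    apply L_st
    rw [Units.val_mk0, ← hx]
    show (x : K) + (1 - (x : K)) = 1
    ring
  tf m f hm h := End_tf v m f hm h

/-- The residue field of a valuation above `p` has characteristic `p`. -/
theorem char_residue {p : ℕ} (hp : p.Prime) (h : v (p : K) < 1) :
    CharP (ResidueField v.valuationSubring) p := by
  have h1 : ((p : ℕ) : ResidueField v.valuationSubring) = 0 := by
    have h2 : ((p : ℕ) : ResidueField v.valuationSubring) =
        residue v.valuationSubring (p : v.valuationSubring) := (map_natCast _ p).symm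
    rw [h2, residue_eq_zero_iff, Valuation.mem_maximalIdeal_iff]
    simpa using h
  exact (CharP.charP_iff_prime_eq_zero hp).2 h1

theorem prod_sy_single (π : Kˣ) : ∀ (n : ℕ) (g : Fin n → Kˣ) (hg : ∀ i, v (g i : K) = 1),
    ((List.finRange n).map fun i => L v (g i) (hg i)).prod
      (Pi.single 1 (mkG v 1 (symb ![π]))) =
    Pi.single (n + 1) (mkG v (n + 1) (symb (Fin.snoc g π : Fin (n + 1) → Kˣ))) := by
  intro n
  induction n with
  | zero =>
    intro g hg
    have h : (Fin.snoc g π : Fin 1 → Kˣ) = ![π] := by
      funext i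
      fin_cases i
      rfl
    rw [h]
    rfl
  | succ n ih =>
    intro g hg
    rw [List.finRange_succ, List.map_cons, List.prod_cons, List.map_map]
    have e : ∀ (A B : AddMonoid.End (∀ k, G v k)) (x : ∀ k, G v k), (A * B) x = A (B x) :=
      fun _ _ _ => rfl
    rw [e]
    have h1 := ih (fun i => g i.succ) (fun i => hg i.succ)
    have h2 : ((fun i => L v (g i) (hg i)) ∘ Fin.succ) =
      fun i : Fin n => L v (g i.succ) (hg i.succ) := rfl
    rw [h2, h1, L_single, consBar_mk, consHom_symb, Fin.cons_snoc_eq_snoc_cons]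
    have h3 : (Fin.cons (g 0) fun i : Fin n => g i.succ : Fin (n + 1) → Kˣ) = g :=
      Fin.cons_self_tail g
    rw [h3]

/-- The key statement. -/
theorem unramified_snoc [CharZero K] {p : ℕ} (hp : p.Prime) (h : v (p : K) < 1) (d n : ℕ)
    (hd : Algebra.trdeg ℚ K ≤ d) (hn : 2 ^ (d + 1) ≤ n) (g : Fin n → Kˣ)
    (hg : ∀ i, v (g i : K) = 1) (π : Kˣ) : Unramified v (symb (Fin.snoc g π : Fin (n + 1) → Kˣ)) := by
  have : Fact p.Prime := ⟨hp⟩
  have hc := char_residue v hp h
  let _ : Algebra (ZMod p) (ResidueField v.valuationSubring) := ZMod.algebra _ p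
  have h1 := trdeg_residue_le hp v.valuationSubring d hd
  -- the residues
  have hne : ∀ i, residue v.valuationSubring ⟨(g i : K), (hg i).le⟩ ≠ 0 := by
    intro i h2
    rw [residue_eq_zero_iff, Valuation.mem_maximalIdeal_iff] at h2
    exact absurd h2 (by
      show ¬ v (g i : K) < 1
      rw [hg i]
      exact lt_irrefl _)
  have h3 := Pool.Agent.Lib.MilnorVan.vanish_field2 (isSymb_sy v) d n h1 hn
    (fun i => Units.mk0 _ (hne i))
  have h4 : (fun i => sy v (Units.mk0 _ (hne i))) = fun i => L v (g i) (hg i) := by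
    funext i
    exact sy_eq v _ (g i) (hg i) ⟨(g i : K), (hg i).le⟩ rfl rfl
  rw [h4] at h3
  have h5 := prod_sy_single v π n g hg
  rw [h3] at h5
  have h6 := congrFun h5 (n + 1)
  rw [Pi.single_eq_same] at h6
  exact (mem_Usat v).1 ((mkG_eq_zero v).1 h6.symm)

end

end P4a177v
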